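import Pool.Agent.Lib.MP_b5021c_nt.IfaceK1

/-!
# MP_b5021c_nt, row QPS: a polynomial with a single zero in the disc is a reversed minimal polynomial.
-/

namespace Pool.Agent.MP_b5021c_nt.H15

open Polynomial

noncomputable section

lemma norm_prod_lt_one (s : Multiset ℂ) (hs : ∀ x ∈ s, ‖x‖ < 1) :
    ‖s.prod‖ ≤ 1 ∧ (s ≠ 0 → ‖s.prod‖ < 1) := by
  induction s using Multiset.induction_on with
  | empty => simp
  | cons a s ih =>
    have ha : ‖a‖ < 1 := hs a (Multiset.mem_cons_self a s)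
    have ih' := ih (fun x hx => hs x (Multiset.mem_cons_of_mem hx))
    have h : ‖(a ::ₘ s).prod‖ < 1 := by
      rw [Multiset.prod_cons, norm_mul]
      calc ‖a‖ * ‖s.prod‖ ≤ ‖a‖ * 1 := by
            exact mul_le_mul_of_nonneg_left ih'.1 (norm_nonneg a)
        _ = ‖a‖ := mul_one _
        _ < 1 := ha
    exact ⟨h.le, fun _ => h⟩

lemma monic_small_roots (r : ℤ[X]) (hr : r.Monic) (h0 : r.coeff 0 ≠ 0)
    (hroot : ∀ z : ℂ, (r.map (Int.castRingHom ℂ)).eval z = 0 → ‖z‖ < 1) : r = 1 := by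
  have hm : (r.map (Int.castRingHom ℂ)).Monic := hr.map _
  have hsp : (r.map (Int.castRingHom ℂ)).Splits := IsAlgClosed.splits _
  have hc := hsp.coeff_zero_eq_prod_roots_of_monic hm
  have hroots : ∀ x ∈ (r.map (Int.castRingHom ℂ)).roots, ‖x‖ < 1 := by
    intro x hx
    exact hroot x ((mem_roots'.1 hx).2)
  have hn := norm_prod_lt_one _ hroots
  have hco : ‖(r.map (Int.castRingHom ℂ)).coeff 0‖ = ‖(r.map (Int.castRingHom ℂ)).roots.prod‖ := by
    rw [hc, norm_mul, norm_pow, norm_neg, norm_one, one_pow, one_mul]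
  have hge : (1 : ℝ) ≤ ‖(r.map (Int.castRingHom ℂ)).coeff 0‖ := by
    rw [coeff_map, eq_intCast, Complex.norm_intCast]
    have : (1 : ℤ) ≤ |r.coeff 0| := Int.one_le_abs h0
    exact_mod_cast this
  have hz : (r.map (Int.castRingHom ℂ)).roots = 0 := by
    by_contra hne
    have := hn.2 hne
    linarith
  have hdeg : r.natDegree = 0 := by
    have h1 := hsp.natDegree_eq_card_roots
    rw [hz, Multiset.card_zero, natDegree_map_eq_of_injective (RingHom.injective_int _)] at h1
    exact h1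
  exact hr.natDegree_eq_zero.1 hdeg

lemma reverse_linear (θ : ℂ) (h : θ ≠ 0) : ((1 : ℂ[X]) - C θ * X).reverse = X - C θ := by
  have hd : ((1 : ℂ[X]) - C θ * X).natDegree = 1 := by
    have : ((1 : ℂ[X]) - C θ * X) = C (-θ) * X + C 1 := by
      rw [C_neg, C_1]; ring
    rw [this]
    exact natDegree_linear (neg_ne_zero.2 h)
  unfold reverse
  rw [hd, reflect_sub, reflect_C_mul, reflect_one_X, reflect_one, pow_one, mul_one]

lemma reverse_reverse' (Q : ℤ[X]) (h : Q.coeff 0 ≠ 0) : Q.reverse.reverse = Q := by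
  have ht : Q.natTrailingDegree = 0 := natTrailingDegree_eq_zero.2 (Or.inr h)
  have hd : Q.reverse.natDegree = Q.natDegree := by
    rw [reverse_natDegree, ht, Nat.sub_zero]
  have h1 : Q.reverse.reverse = reflect Q.reverse.natDegree Q.reverse := rfl
  rw [h1, hd]
  exact reflect_reflect

/-- QPS. -/
theorem qps : QpsS := by
  rintro θ Q ⟨h1, h0, g, hg, hz⟩
  have hθ0 : (θ : ℂ) ≠ 0 := by
    have : θ ≠ 0 := by linarith
    exact_mod_cast this
  have hinj : Function.Injective (Int.castRingHom ℂ) := RingHom.injective_int _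
  have hnθ : ‖(θ : ℂ)‖ = θ := by
    rw [Complex.norm_real, Real.norm_eq_abs, abs_of_pos (by linarith)]
  have h0' : Q.coeff 0 ≠ 0 := by rw [h0]; exact one_ne_zero
  have hQ0 : Q ≠ 0 := by
    intro h
    rw [h] at h0'
    exact h0' (coeff_zero 0)
  -- the reversed polynomial
  have hmap : Q.reverse.map (Int.castRingHom ℂ) = (X - C (θ : ℂ)) * g.reverse := by
    have e1 : (Q.map (Int.castRingHom ℂ)).reverse = Q.reverse.map (Int.castRingHom ℂ) := by
      unfold reverse
      rw [natDegree_map_eq_of_injective hinj, reflect_map]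
    rw [← e1, hg, reverse_mul_of_domain, reverse_linear _ hθ0]
  have hPm : Q.reverse.Monic := by
    rw [Monic, reverse_leadingCoeff, trailingCoeff, natTrailingDegree_eq_zero.2 (Or.inr h0'), h0]
  have hG : ∀ z : ℂ, g.reverse.eval z = 0 → ‖z‖ < 1 := by
    intro z hzz
    by_cases hz0 : z = 0
    · rw [hz0, norm_zero]; exact one_pos
    · by_contra hcon
      push Not at hcon
      have hzi : ‖z⁻¹‖ ≤ 1 := by
        rw [norm_inv]
        exact inv_le_one_of_one_le₀ hcon
      apply hz z⁻¹ hzi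
      letI : Invertible (z⁻¹) := invertibleOfNonzero (inv_ne_zero hz0)
      have := eval₂_reverse_eq_zero_iff (RingHom.id ℂ) (z⁻¹) g
      rw [invOf_eq_inv, inv_inv] at this
      exact this.1 hzz
  have hroot : aeval θ Q.reverse = 0 := by
    have h2 : (Q.reverse.map (Int.castRingHom ℂ)).eval (θ : ℂ) = 0 := by
      rw [hmap, eval_mul, eval_sub, eval_X, eval_C, sub_self, zero_mul]
    have h3 : aeval (θ : ℂ) Q.reverse = 0 := by
      rw [aeval_def, ← eval_map]
      exact h2
    have h4 : aeval (θ : ℂ) Q.reverse = ((aeval θ Q.reverse : ℝ) : ℂ) := by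
      have := aeval_algebraMap_apply ℂ θ Q.reverse
      simpa using this
    rw [h4] at h3
    exact_mod_cast h3
  have hint : IsIntegral ℤ θ := ⟨Q.reverse, hPm, by rw [← aeval_def]; exact hroot⟩
  obtain ⟨r, hr⟩ := minpoly.isIntegrallyClosed_dvd hint hroot
  have hmm : (minpoly ℤ θ).Monic := minpoly.monic hint
  have hrm : r.Monic := by
    rw [hr] at hPm
    exact hmm.of_mul_monic_left hPm
  -- factor out the root θ of the minimal polynomial
  have hmθ : ((minpoly ℤ θ).map (Int.castRingHom ℂ)).eval (θ : ℂ) = 0 := by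
    have h4 : aeval (θ : ℂ) (minpoly ℤ θ) = ((aeval θ (minpoly ℤ θ) : ℝ) : ℂ) := by
      have := aeval_algebraMap_apply ℂ θ (minpoly ℤ θ)
      simpa using this
    rw [minpoly.aeval] at h4
    rw [eval_map]
    have : eval₂ (Int.castRingHom ℂ) (θ : ℂ) (minpoly ℤ θ) = aeval (θ : ℂ) (minpoly ℤ θ) := rfl
    rw [this, h4, Complex.ofReal_zero]
  obtain ⟨m1, hm1⟩ := dvd_iff_isRoot.2 hmθ
  have hGf : g.reverse = m1 * r.map (Int.castRingHom ℂ) := by
    have h5 : (X - C (θ : ℂ)) * g.reverse = (X - C (θ : ℂ)) * (m1 * r.map (Int.castRingHom ℂ)) := by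
      rw [← hmap, hr, Polynomial.map_mul, hm1, mul_assoc]
    exact mul_left_cancel₀ (X_sub_C_ne_zero _) h5
  have hr1 : r = 1 := by
    apply monic_small_roots r hrm
    · intro hr0
      have h6 : Q.reverse.coeff 0 = 0 := by
        rw [hr, mul_coeff_zero, hr0, mul_zero]
      rw [coeff_zero_reverse, leadingCoeff_eq_zero] at h6
      exact hQ0 h6
    · intro z hzr
      apply hG
      rw [hGf, eval_mul, hzr, mul_zero]
  have hPeq : Q.reverse = minpoly ℤ θ := by rw [hr, hr1, mul_one]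
  refine ⟨⟨h1, hint, ?_⟩, ?_⟩
  · intro γ hγ hne
    apply hG
    have h7 : ((minpoly ℤ θ).map (Int.castRingHom ℂ)).eval γ = 0 := by
      rw [eval_map]
      exact hγ
    rw [hm1, eval_mul, eval_sub, eval_X, eval_C, mul_eq_zero, sub_eq_zero] at h7
    rcases h7 with h7 | h7
    · exact absurd h7 hne
    · rw [hGf, eval_mul, h7, zero_mul]
  · rw [← hPeq, reverse_reverse' Q h0']

end

end Pool.Agent.MP_b5021c_nt.H15
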